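import Pool.Agent.helper77.SK.Spec2

/-!
# Project SK (MP_f6e9a2_nt), row CHE: the statement for character sums
-/

set_option autoImplicit false

namespace Pool.Agent.SK

open Polynomial Finset

lemma CHE_one {p : ℕ} [Fact p.Prime] (χ : MulChar (ZMod p) ℂ) (m d : ℕ) (hm : orderOf χ = m)
    (hmd : m * d + 1 = p) (hd : 0 < d) (z : (ZMod p)ˣ) : χ z = 1 ↔ z ^ d = 1 := by
  obtain ⟨g, hg⟩ := IsCyclic.exists_generator (α := (ZMod p)ˣ)
  have hord : orderOf g = p - 1 := by
    rw [orderOf_eq_card_of_forall_mem_zpowers hg, Nat.card_eq_fintype_card, ZMod.card_units]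
  have hpow : ∀ x : (ZMod p)ˣ, ∃ k : ℕ, g ^ k = x := by
    intro x
    exact mem_powers_iff_mem_zpowers.2 (hg x)
  have hχ : ∀ j : ℕ, χ ^ j = 1 ↔ (χ g) ^ j = 1 := by
    intro j
    constructor
    · intro h
      have h1 := congrArg (fun c : MulChar (ZMod p) ℂ => c (g : ZMod p)) h
      simp only [MulChar.pow_apply_coe, MulChar.one_apply_coe] at h1
      exact h1
    · intro h
      ext x
      obtain ⟨k, rfl⟩ := hpow x
      rw [MulChar.pow_apply_coe, MulChar.one_apply_coe, Units.val_pow_eq_pow_val, map_pow,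
        ← pow_mul, mul_comm, pow_mul, h, one_pow]
  have hordχ : orderOf (χ g) = m := by
    rw [← hm]
    exact orderOf_eq_orderOf_iff.2 fun j => (hχ j).symm
  obtain ⟨k, rfl⟩ := hpow z
  rw [Units.val_pow_eq_pow_val, map_pow, ← orderOf_dvd_iff_pow_eq_one, hordχ, ← pow_mul,
    ← orderOf_dvd_iff_pow_eq_one, hord]
  have hp1 : p - 1 = m * d := by omega
  rw [hp1]
  exact (Nat.mul_dvd_mul_iff_right hd).symm

lemma CHE_eq {p : ℕ} [Fact p.Prime] (χ : MulChar (ZMod p) ℂ) (m d : ℕ) (hm : orderOf χ = m)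
    (hmd : m * d + 1 = p) (hd : 0 < d) (x y : ZMod p) (hy : y ≠ 0) :
    χ x = χ y ↔ x ^ d = y ^ d := by
  have hχy : χ y ≠ 0 := by
    have hu : IsUnit (χ y) := (isUnit_iff_ne_zero.2 hy).map χ
    exact hu.ne_zero
  by_cases hx : x = 0
  · subst hx
    have h1 : χ (0 : ZMod p) = 0 := MulChar.map_zero χ
    rw [h1, zero_pow hd.ne']
    constructor
    · intro h
      exact absurd h.symm hχy
    · intro h
      exact absurd h.symm (pow_ne_zero _ hy)
  · have h1 := CHE_one χ m d hm hmd hd (Units.mk0 x hx * (Units.mk0 y hy)⁻¹)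
    have h2 : (((Units.mk0 x hx * (Units.mk0 y hy)⁻¹ : (ZMod p)ˣ)) : ZMod p) * y = x := by
      rw [Units.val_mul, Units.val_inv_eq_inv_val, Units.val_mk0, Units.val_mk0, mul_assoc,
        inv_mul_cancel₀ hy, mul_one]
    have h3 : χ x = χ (((Units.mk0 x hx * (Units.mk0 y hy)⁻¹ : (ZMod p)ˣ)) : ZMod p) * χ y := by
      rw [← map_mul, h2]
    have h4 : x ^ d =
        ((((Units.mk0 x hx * (Units.mk0 y hy)⁻¹) ^ d : (ZMod p)ˣ)) : ZMod p) * y ^ d := by
      rw [Units.val_pow_eq_pow_val, ← mul_pow, h2]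
    constructor
    · intro h
      have h5 : χ (((Units.mk0 x hx * (Units.mk0 y hy)⁻¹ : (ZMod p)ˣ)) : ZMod p) = 1 := by
        apply mul_right_cancel₀ hχy
        rw [← h3, one_mul, h]
      rw [h4, h1.1 h5, Units.val_one, one_mul]
    · intro h
      have h5 : (Units.mk0 x hx * (Units.mk0 y hy)⁻¹ : (ZMod p)ˣ) ^ d = 1 := by
        apply Units.ext
        apply mul_right_cancel₀ (pow_ne_zero d hy)
        rw [← h4, Units.val_one, one_mul, h]
      rw [h3, h1.2 h5, one_mul]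

lemma CHE_norm {p : ℕ} (χ : MulChar (ZMod p) ℂ) (x : ZMod p) : ‖χ x‖ ≤ 1 :=
  DirichletCharacter.norm_le_one χ x

lemma CHE_re (w : ℂ) (h1 : ‖w‖ ≤ 1) (h2 : 1 ≤ w.re) : w = 1 := by
  have h3 : w.re ≤ ‖w‖ := Complex.re_le_norm w
  have h4 : w.re = 1 := le_antisymm (h3.trans h1) h2
  have h5 : w.re * w.re + w.im * w.im ≤ 1 := by
    have h6 : ‖w‖ ^ 2 ≤ 1 := by
      have := norm_nonneg w
      nlinarith
    rw [← Complex.normSq_eq_norm_sq, Complex.normSq_apply] at h6
    exact h6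
  have h7 : w.im = 0 := by
    rw [h4] at h5
    have : w.im * w.im ≤ 0 := by linarith
    exact mul_self_eq_zero.1 (le_antisymm this (mul_self_nonneg _))
  exact Complex.ext h4 h7

/-- the case of equality in the triangle inequality -/
lemma CHE_tri {ι : Type*} (s : Finset ι) (f : ι → ℂ) (hf : ∀ i ∈ s, ‖f i‖ ≤ 1)
    (hs : s.Nonempty) (h : ‖∑ i ∈ s, f i‖ = s.card) :
    ∃ u : ℂ, u ≠ 0 ∧ ∀ i ∈ s, f i = u := by
  set S : ℂ := ∑ i ∈ s, f i with hS
  have hn : (0 : ℝ) < s.card := by exact_mod_cast hs.card_pos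
  have hS0 : S ≠ 0 := by
    intro h0
    rw [h0, norm_zero] at h
    linarith
  set u : ℂ := S / (s.card : ℂ) with hu
  have hnu : ‖u‖ = 1 := by
    rw [hu, norm_div, h]
    simp only [Complex.norm_natCast]
    exact div_self hn.ne'
  have hu0 : u ≠ 0 := by
    intro h0
    rw [h0, norm_zero] at hnu
    exact zero_ne_one hnu
  have hcu : (starRingEnd ℂ) u * u = 1 := by
    rw [mul_comm, Complex.mul_conj, Complex.normSq_eq_norm_sq, hnu]
    norm_num
  have hle : ∀ i ∈ s, ((starRingEnd ℂ) u * f i).re ≤ 1 := by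
    intro i hi
    refine (Complex.re_le_norm _).trans ?_
    rw [norm_mul, Complex.norm_conj, hnu, one_mul]
    exact hf i hi
  have hsum : ∑ i ∈ s, ((starRingEnd ℂ) u * f i).re = ∑ i ∈ s, (1 : ℝ) := by
    rw [← Complex.re_sum, ← Finset.mul_sum, ← hS]
    have h1 : S = (s.card : ℂ) * u := by
      rw [hu, mul_div_cancel₀]
      exact_mod_cast hs.card_pos.ne'
    rw [h1, mul_left_comm, hcu, mul_one, Finset.sum_const, nsmul_eq_mul, mul_one,
      Complex.natCast_re]
  refine ⟨u, hu0, fun i hi => ?_⟩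
  have h1 := (Finset.sum_eq_sum_iff_of_le hle).1 hsum i hi
  have h2 : (starRingEnd ℂ) u * f i = 1 := by
    refine CHE_re _ ?_ h1.ge
    rw [norm_mul, Complex.norm_conj, hnu, one_mul]
    exact hf i hi
  calc f i = u * ((starRingEnd ℂ) u * f i) := by
        rw [← mul_assoc, mul_comm u, hcu, one_mul]
    _ = u := by rw [h2, mul_one]

theorem CHE (h1 : FNE_stmt) : CHE_stmt := by
  intro p hp χ A B hχ hA hB hsum
  have hp2 : 2 ≤ p := hp.out.two_le
  obtain ⟨d, hd⟩ : orderOf χ ∣ p - 1 := by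
    have := χ.orderOf_dvd_card_sub_one
    rwa [ZMod.card] at this
  set m := orderOf χ with hm
  have hm0 : m ≠ 0 := by
    intro h0
    rw [h0, zero_mul] at hd
    omega
  have hm1 : m ≠ 1 := by
    intro h
    exact hχ (orderOf_eq_one_iff.1 (hm ▸ h))
  have hm2 : 2 ≤ m := by omega
  have hmd : m * d + 1 = p := by omega
  have hd0 : 0 < d := by
    rcases Nat.eq_zero_or_pos d with h | h
    · rw [h, mul_zero] at hd
      omega
    · exact h
  have hAne : A.Nonempty := Finset.card_pos.1 (by omega)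
  have hBne : B.Nonempty := Finset.card_pos.1 (by omega)
  obtain ⟨u, hu0, hu⟩ := CHE_tri (A ×ˢ B) (fun q => χ (q.1 + q.2))
    (fun q _ => CHE_norm χ _) (hAne.product hBne) (by
      rw [Finset.sum_product, Finset.card_product, Nat.cast_mul]
      exact hsum)
  have huu : ∀ a ∈ A, ∀ b ∈ B, χ (a + b) = u := fun a ha b hb =>
    hu (a, b) (Finset.mem_product.2 ⟨ha, hb⟩)
  obtain ⟨a₀, ha₀⟩ := hAne
  obtain ⟨b₀, hb₀⟩ := hBne
  have h0 : a₀ + b₀ ≠ 0 := by
    intro h0
    have h2 := huu a₀ ha₀ b₀ hb₀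
    rw [h0, MulChar.map_zero χ] at h2
    exact hu0 h2.symm
  have hcardB : (B.image Neg.neg).card = B.card := Finset.card_image_of_injective _ neg_injective
  have hcl : Cl A (B.image Neg.neg) d ((a₀ + b₀) ^ d) := by
    refine ⟨pow_ne_zero _ h0, ?_⟩
    intro a ha b hb
    obtain ⟨b', hb', rfl⟩ := Finset.mem_image.1 hb
    rw [sub_neg_eq_add]
    exact (CHE_eq χ m d hm.symm hmd hd0 _ _ h0).1
      ((huu a ha b' hb').trans (huu a₀ ha₀ b₀ hb₀).symm)
  obtain ⟨k1, k2, k3⟩ := h1 p m d A (B.image Neg.neg) _ hm2 hmd hA (by rw [hcardB]; exact hB) hcl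
  rw [hcardB] at k1 k2
  refine ⟨?_, ?_, ?_⟩
  · calc A.card * B.card * m ≤ d * m := Nat.mul_le_mul_right _ k1
      _ = p - 1 := by rw [hd, mul_comm]
  · intro heq
    have h2 : A.card * B.card = d := by
      apply Nat.eq_of_mul_eq_mul_right (Nat.pos_of_ne_zero hm0)
      rw [heq, hd, mul_comm]
    rcases k2 h2 with h3 | h3 | ⟨h3, h4⟩
    · left
      rw [h2, h3]
    · right; left
      exact h3
    · right; right
      refine ⟨h3, ?_⟩
      have hm2' : m = 2 := by
        rw [h3, h4] at hmd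
        omega
      refine ⟨hm2', ?_⟩
      rw [h4] at h2
      have hA9 : A.card ∣ 9 := ⟨B.card, h2.symm⟩
      have hA9' : A.card ≤ 4 := by
        by_contra hcon
        have : 5 * 2 ≤ A.card * B.card := Nat.mul_le_mul (by omega) hB
        omega
      have hcase : A.card = 2 ∨ A.card = 3 ∨ A.card = 4 := by omega
      rcases hcase with h | h | h
      · rw [h] at h2
        omega
      · rw [h] at h2
        exact ⟨h, by omega⟩
      · rw [h] at h2
        omega
  · intro h4m z hz hall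
    have hd4 : d ≠ 4 := by
      rintro rfl
      apply h4m
      rw [hd, mul_comm]
    refine k3 hd4 ?_
    intro x hx
    have h2 : χ x = χ (a₀ + b₀) := (CHE_eq χ m d hm.symm hmd hd0 _ _ h0).2 hx
    have h3 : χ (a₀ + b₀) = z := (hall (a₀ + b₀)).2 ⟨a₀, ha₀, b₀, hb₀, rfl⟩
    obtain ⟨a, ha, b, hb, hxab⟩ := (hall x).1 (h2.trans h3)
    exact ⟨a, ha, -b, Finset.mem_image_of_mem _ hb, by rw [hxab, sub_neg_eq_add]⟩

end Pool.Agent.SK
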