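import Pool.Agent.helper77.SK.Spec

/-!
# Row sk:N2 (MP_f6e9a2_nt)
-/

set_option autoImplicit false

namespace Pool.Agent.SK

open Polynomial Finset

section
variable {p : ℕ} [hp : Fact p.Prime]

/-- the class -/
private noncomputable def N2_G (p : ℕ) [Fact p.Prime] (n : ℕ) (ε : ZMod p) : Finset (ZMod p) :=
  univ.filter fun x => x ^ n = ε

private lemma N2_mem {n : ℕ} {ε x : ZMod p} : x ∈ N2_G p n ε ↔ x ^ n = ε := by
  simp [N2_G]

private lemma N2_sq {n : ℕ} (h : 2 * n + 1 = p) {x : ZMod p} (hx : x ≠ 0) :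
    x ^ n * x ^ n = 1 := by
  rw [← pow_add]
  have h1 : n + n = p - 1 := by omega
  rw [h1]
  exact ZMod.pow_card_sub_one_eq_one hx

private lemma N2_units (f : ZMod p → ZMod p) :
    ∑ x ∈ (univ : Finset (ZMod p)) \ {0}, f x = ∑ x : (ZMod p)ˣ, f x := by
  let φ : (ZMod p)ˣ ↪ ZMod p := ⟨fun x ↦ x, Units.val_injective⟩
  have h : univ.map φ = univ \ {0} := by
    ext x
    simp only [mem_map, mem_univ, true_and, mem_sdiff, mem_singleton]
    constructor
    · rintro ⟨u, rfl⟩
      exact u.ne_zero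
    · intro hx
      exact ⟨Units.mk0 x hx, rfl⟩
  rw [← h, sum_map]
  rfl

private lemma N2_pow {n : ℕ} (h : 2 * n + 1 = p) {ε : ZMod p} (hε : ε * ε = 1) (hn : 0 < n)
    (k : ℕ) : ∑ x ∈ N2_G p n ε, x ^ k =
      n * ((if 2 * n ∣ k then 1 else 0) + ε * (if 2 * n ∣ k + n then 1 else 0)) := by
  have hε0 : ε ≠ 0 := by
    rintro rfl
    rw [mul_zero] at hε
    exact zero_ne_one hε
  have hcard : Fintype.card (ZMod p) - 1 = 2 * n := by
    rw [ZMod.card]
    omega
  have hu : ∀ i : ℕ, ∑ x ∈ (univ : Finset (ZMod p)) \ {0}, x ^ i =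
      if 2 * n ∣ i then -1 else 0 := by
    intro i
    rw [N2_units fun x => x ^ i]
    have := FiniteField.sum_pow_units (ZMod p) i
    rw [hcard] at this
    exact this
  have h2n : (2 : ZMod p) * n = -1 := by
    have h1 : ((2 * n + 1 : ℕ) : ZMod p) = 0 := by
      rw [h]
      exact ZMod.natCast_self p
    push_cast at h1
    linear_combination h1
  have h1 : ∑ x ∈ (univ : Finset (ZMod p)) \ {0}, (x ^ k + ε * x ^ (k + n)) =
      ∑ x ∈ N2_G p n ε, 2 * x ^ k := by
    have h3 : N2_G p n ε = ((univ : Finset (ZMod p)) \ {0}).filter fun x => x ^ n = ε := by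
      ext x
      rw [N2_mem, mem_filter, mem_sdiff, mem_singleton]
      constructor
      · intro hx
        refine ⟨⟨mem_univ _, ?_⟩, hx⟩
        rintro rfl
        rw [zero_pow hn.ne'] at hx
        exact hε0 hx.symm
      · exact fun hx => hx.2
    rw [h3, sum_filter]
    refine sum_congr rfl fun x hx => ?_
    rw [mem_sdiff, mem_singleton] at hx
    have h4 := N2_sq h hx.2
    by_cases hxe : x ^ n = ε
    · rw [if_pos hxe, pow_add, hxe]
      linear_combination x ^ k * hε
    · rw [if_neg hxe, pow_add]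
      have h5 : (x ^ n - ε) * (x ^ n + ε) = 0 := by linear_combination h4 - hε
      rcases mul_eq_zero.1 h5 with h6 | h6
      · exact absurd (sub_eq_zero.1 h6) hxe
      · linear_combination ε * x ^ k * h6 - x ^ k * hε
  rw [sum_add_distrib, ← mul_sum, ← mul_sum, hu, hu] at h1
  have h5 : ∑ x ∈ N2_G p n ε, x ^ k = -(n * (2 * ∑ x ∈ N2_G p n ε, x ^ k)) := by
    linear_combination (∑ x ∈ N2_G p n ε, x ^ k) * h2n
  rw [h5, ← h1]
  split_ifs <;> ring

private lemma N2_pow_zero {n : ℕ} (h : 2 * n + 1 = p) {ε : ZMod p} (hε : ε * ε = 1) (hn : 0 < n) :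
    ∑ x ∈ N2_G p n ε, x ^ 0 = n := by
  rw [N2_pow h hε hn 0, if_pos (dvd_zero _), if_neg]
  · ring
  · intro hd
    have := Nat.le_of_dvd (by omega) hd
    omega

private lemma N2_pow_n {n : ℕ} (h : 2 * n + 1 = p) {ε : ZMod p} (hε : ε * ε = 1) (hn : 0 < n) :
    ∑ x ∈ N2_G p n ε, x ^ n = n * ε := by
  rw [N2_pow h hε hn n, if_pos (by rw [two_mul] : 2 * n ∣ n + n), if_neg]
  · ring
  · intro hd
    have := Nat.le_of_dvd (by omega) hd
    omega

private lemma N2_pow_2n {n : ℕ} (h : 2 * n + 1 = p) {ε : ZMod p} (hε : ε * ε = 1) (hn : 0 < n) :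
    ∑ x ∈ N2_G p n ε, x ^ (2 * n) = n := by
  rw [N2_pow h hε hn (2 * n), if_pos (dvd_refl _), if_neg]
  · ring
  · intro hd
    have h1 : 2 * n ∣ n := (Nat.dvd_add_right (dvd_refl (2 * n))).1 hd
    have := Nat.le_of_dvd (by omega) h1
    omega

private lemma N2_pow_not {n : ℕ} (h : 2 * n + 1 = p) {ε : ZMod p} (hε : ε * ε = 1) (hn : 0 < n)
    {k : ℕ} (hk : ¬ n ∣ k) : ∑ x ∈ N2_G p n ε, x ^ k = 0 := by
  rw [N2_pow h hε hn k, if_neg, if_neg]
  · ring
  · intro hd
    apply hk
    have h1 : n ∣ k + n := (Dvd.intro_left 2 rfl).trans hd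
    exact (Nat.dvd_add_left (dvd_refl n)).1 h1
  · intro hd
    exact hk ((Dvd.intro_left 2 rfl).trans hd)

private lemma N2_shift {n : ℕ} (h : 2 * n + 1 = p) {ε : ZMod p} (hε : ε * ε = 1) (hn : 0 < n)
    (δ : ZMod p) : ∑ x ∈ N2_G p n ε, (x + δ) ^ n = n * (δ ^ n + ε) := by
  have h1 : ∀ x ∈ N2_G p n ε, (x + δ) ^ n =
      ∑ k ∈ range (n + 1), x ^ k * δ ^ (n - k) * (n.choose k : ZMod p) := fun x _ => add_pow x δ n
  rw [sum_congr rfl h1, sum_comm]
  have h2 : ∀ k ∈ range (n + 1), ∑ x ∈ N2_G p n ε, x ^ k * δ ^ (n - k) * (n.choose k : ZMod p) =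
      (∑ x ∈ N2_G p n ε, x ^ k) * (δ ^ (n - k) * (n.choose k : ZMod p)) := by
    intro k _
    rw [sum_mul]
    exact sum_congr rfl fun x _ => by ring
  rw [sum_congr rfl h2, sum_range_succ, sum_eq_single 0]
  · rw [N2_pow_zero h hε hn, N2_pow_n h hε hn, Nat.sub_zero, Nat.sub_self, Nat.choose_zero_right,
      Nat.choose_self]
    push_cast
    ring
  · intro k hk hk0
    rw [mem_range] at hk
    rw [N2_pow_not h hε hn, zero_mul]
    intro hd
    have := Nat.le_of_dvd (Nat.pos_of_ne_zero hk0) hd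
    omega
  · intro h0
    rw [mem_range] at h0
    exact absurd hn h0

/-- the sums with `x ^ (n - 2 j) (x ^ 2 + c) ^ n` -/
private lemma N2_key {M : ℕ} (h : 2 * (2 * M) + 1 = p) {ε : ZMod p} (hε : ε * ε = 1)
    (c : ZMod p) (hc : c ≠ 0) (hG : ∀ x ∈ N2_G p (2 * M) ε, (x ^ 2 + c) ^ (2 * M) = -1)
    {j : ℕ} (hj : 1 ≤ j) (hjM : j < M) :
    ((2 * M).choose j : ZMod p) * (ε * c ^ M) + ((2 * M).choose (M - j) : ZMod p) = 0 := by
  set n := 2 * M with hn
  have hn0 : 0 < n := by omega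
  have hnp : (n : ZMod p) ≠ 0 := by
    intro h0
    rw [ZMod.natCast_eq_zero_iff] at h0
    have := Nat.le_of_dvd hn0 h0
    omega
  have h1 : ∑ x ∈ N2_G p n ε, x ^ (n - 2 * j) * (x ^ 2 + c) ^ n = 0 := by
    have h2 : ∀ x ∈ N2_G p n ε, x ^ (n - 2 * j) * (x ^ 2 + c) ^ n = -(x ^ (n - 2 * j)) := by
      intro x hx
      rw [hG x hx]
      ring
    rw [sum_congr rfl h2, sum_neg_distrib, N2_pow_not h hε hn0, neg_zero]
    intro hd
    have := Nat.le_of_dvd (by omega) hd
    omega
  have h2 : ∀ x ∈ N2_G p n ε, x ^ (n - 2 * j) * (x ^ 2 + c) ^ n =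
      ∑ i ∈ range (n + 1), x ^ (2 * i + (n - 2 * j)) * (c ^ (n - i) * (n.choose i : ZMod p)) := by
    intro x _
    rw [add_pow, mul_sum]
    refine sum_congr rfl fun i _ => ?_
    rw [pow_add, pow_mul]
    ring
  rw [sum_congr rfl h2, sum_comm] at h1
  have h3 : ∀ i ∈ range (n + 1), ∑ x ∈ N2_G p n ε,
      x ^ (2 * i + (n - 2 * j)) * (c ^ (n - i) * (n.choose i : ZMod p)) =
      (∑ x ∈ N2_G p n ε, x ^ (2 * i + (n - 2 * j))) * (c ^ (n - i) * (n.choose i : ZMod p)) := by
    intro i _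
    rw [sum_mul]
  rw [sum_congr rfl h3, sum_eq_add j (j + M) (by omega)] at h1
  · have e1 : 2 * j + (n - 2 * j) = n := by omega
    have e2 : 2 * (j + M) + (n - 2 * j) = 2 * n := by omega
    have e3 : n - j = M + (M - j) := by omega
    have e4 : n - (j + M) = M - j := by omega
    have e5 : n.choose (j + M) = n.choose (M - j) :=
      Nat.choose_symm_of_eq_add (by omega)
    rw [e1, e2, e3, e4, e5, N2_pow_n h hε hn0, N2_pow_2n h hε hn0, pow_add] at h1
    have h4 : (n : ZMod p) * c ^ (M - j) ≠ 0 := mul_ne_zero hnp (pow_ne_zero _ hc)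
    apply mul_left_cancel₀ h4
    rw [mul_zero]
    linear_combination h1
  · intro i hi hij
    rw [mem_range] at hi
    rw [N2_pow_not h hε hn0, zero_mul]
    rintro ⟨t, ht⟩
    have ht3 : t < 3 := by
      by_contra hcon
      have h5 : n * 3 ≤ n * t := Nat.mul_le_mul_left n (by omega)
      omega
    have ht0 : t ≠ 0 := by
      rintro rfl
      omega
    have h6 : t = 1 ∨ t = 2 := by omega
    rcases h6 with rfl | rfl
    · exact hij.1 (by omega)
    · exact hij.2 (by omega)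
  · intro hi
    exact absurd (mem_range.2 (by omega)) hi
  · intro hi
    exact absurd (mem_range.2 (by omega)) hi

private lemma N2_arith {M : ℕ} (h : 2 * (2 * M) + 1 = p) (hM : 3 ≤ M) (w : ZMod p)
    (h1 : ((2 * M).choose 1 : ZMod p) * w + ((2 * M).choose (M - 1) : ZMod p) = 0)
    (h2 : ((2 * M).choose 2 : ZMod p) * w + ((2 * M).choose (M - 2) : ZMod p) = 0) : False := by
  have hcast : ∀ k : ℕ, 0 < k → k < p → (k : ZMod p) ≠ 0 := by
    intro k h0 hk h3
    rw [ZMod.natCast_eq_zero_iff] at h3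
    have := Nat.le_of_dvd h0 h3
    omega
  have hch : ((2 * M).choose (M - 1) : ZMod p) ≠ 0 := by
    intro h3
    rw [ZMod.natCast_eq_zero_iff] at h3
    have h4 : (2 * M).choose (M - 1) ∣ (2 * M).factorial := by
      rw [← Nat.choose_mul_factorial_mul_factorial (show M - 1 ≤ 2 * M by omega), mul_assoc]
      exact Dvd.intro _ rfl
    have h5 := (hp.out.dvd_factorial).1 (h3.trans h4)
    omega
  have e1 : (2 * M).choose (M - 2 + 1) * (M - 2 + 1) = (2 * M).choose (M - 2) * (2 * M - (M - 2)) :=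
    Nat.choose_succ_right_eq _ _
  have e1' : (2 * M).choose (M - 1) * (M - 1) = (2 * M).choose (M - 2) * (M + 2) := by
    have a1 : M - 2 + 1 = M - 1 := by omega
    have a2 : 2 * M - (M - 2) = M + 2 := by omega
    rw [a1, a2] at e1
    exact e1
  obtain ⟨m, rfl⟩ : ∃ m, M = m + 3 := ⟨M - 3, by omega⟩
  have e2 : (((2 * (m + 3)).choose (m + 3 - 1) : ℕ) : ZMod p) * ((m : ZMod p) + 2) =
      (((2 * (m + 3)).choose (m + 3 - 2) : ℕ) : ZMod p) * ((m : ZMod p) + 5) := by
    have := congrArg (Nat.cast : ℕ → ZMod p) e1'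
    have a1 : m + 3 - 1 = m + 2 := by omega
    have a2 : m + 3 - 2 = m + 1 := by omega
    rw [a1, a2] at this ⊢
    push_cast at this
    linear_combination this
  have e3 : (((2 * (m + 3)).choose 1 : ℕ) : ZMod p) = 2 * ((m : ZMod p) + 3) := by
    rw [Nat.choose_one_right]
    push_cast
    ring
  have e4 : (2 : ZMod p) * (((2 * (m + 3)).choose 2 : ℕ) : ZMod p) =
      2 * ((m : ZMod p) + 3) * (2 * (m : ZMod p) + 5) := by
    have a0 : (2 * (m + 3)).choose (1 + 1) * (1 + 1) = (2 * (m + 3)).choose 1 * (2 * (m + 3) - 1) :=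
      Nat.choose_succ_right_eq _ _
    have a1 : 2 * (m + 3) - 1 = 2 * m + 5 := by omega
    rw [a1, Nat.choose_one_right] at a0
    have := congrArg (Nat.cast : ℕ → ZMod p) a0
    push_cast at this
    linear_combination this
  rw [e3] at h1
  set x : ZMod p := (m : ZMod p) with hx
  set c1 := (((2 * (m + 3)).choose (m + 3 - 1) : ℕ) : ZMod p) with hc1
  set c2 := (((2 * (m + 3)).choose (m + 3 - 2) : ℕ) : ZMod p) with hc2
  set b := (((2 * (m + 3)).choose 2 : ℕ) : ZMod p) with hb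
  have hM0 : x + 3 ≠ 0 := by
    have := hcast (m + 3) (by omega) (by omega)
    push_cast at this
    exact this
  have h27 : 2 * x + 7 ≠ 0 := by
    have := hcast (2 * m + 7) (by omega) (by omega)
    push_cast at this
    exact this
  have h20 : (2 : ZMod p) ≠ 0 := by
    have := hcast 2 (by omega) (by omega)
    exact_mod_cast this
  -- the combination
  have h5 : 2 * (x + 3) * (c1 * ((x + 3) * (2 * x + 7))) = 0 := by
    linear_combination (x + 5) * (2 * b) * h1 - 4 * (x + 3) * (x + 5) * h2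
      - (x + 5) * c1 * e4 + (-4) * (x + 3) * e2
  have h6 : 2 * (x + 3) * (c1 * ((x + 3) * (2 * x + 7))) ≠ 0 :=
    mul_ne_zero (mul_ne_zero h20 hM0) (mul_ne_zero hch (mul_ne_zero hM0 h27))
  exact h6 h5

end

/-- ROW sk:N2. -/
theorem N2 : N2_stmt := by
  intro p hp A B ε hA hB hpn hCl hall
  obtain ⟨hε0, hCl⟩ := hCl
  set M := B.card with hM
  obtain ⟨a1, a2, hne, rfl⟩ := card_eq_two.1 hA
  obtain ⟨b0, hb0⟩ : B.Nonempty := card_pos.1 (by omega)
  have hn0 : 0 < 2 * M := by omega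
  have hab : ∀ a ∈ ({a1, a2} : Finset (ZMod p)), ∀ b ∈ B, a - b ≠ 0 := by
    intro a ha b hb h0
    have := hCl a ha b hb
    rw [h0, zero_pow hn0.ne'] at this
    exact hε0 this.symm
  have hε : ε * ε = 1 := by
    have h1 := hCl a1 (mem_insert_self _ _) b0 hb0
    rw [← h1]
    exact N2_sq hpn (hab a1 (mem_insert_self _ _) b0 hb0)
  have ha1 : a1 ∈ ({a1, a2} : Finset (ZMod p)) := mem_insert_self _ _
  have ha2 : a2 ∈ ({a1, a2} : Finset (ZMod p)) := mem_insert_of_mem (mem_singleton_self _)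
  set G := N2_G p (2 * M) ε with hG
  set δ := a2 - a1 with hδ
  have hδ0 : δ ≠ 0 := sub_ne_zero.2 hne.symm
  set D := B.image fun b => a1 - b with hD
  set E := B.image fun b => a2 - b with hE
  have hDc : D.card = M := card_image_of_injective _ fun x y hxy => by
    simpa using hxy
  have hEc : E.card = M := card_image_of_injective _ fun x y hxy => by
    simpa using hxy
  have hDG : D ⊆ G := by
    intro x hx
    obtain ⟨b, hb, rfl⟩ := mem_image.1 hx
    exact N2_mem.2 (hCl a1 ha1 b hb)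
  have hEG : E ⊆ G := by
    intro x hx
    obtain ⟨b, hb, rfl⟩ := mem_image.1 hx
    exact N2_mem.2 (hCl a2 ha2 b hb)
  have hDE : ∀ x, x ∈ E ↔ x - δ ∈ D := by
    intro x
    constructor
    · intro hx
      obtain ⟨b, hb, rfl⟩ := mem_image.1 hx
      exact mem_image.2 ⟨b, hb, by rw [hδ]; ring⟩
    · intro hx
      obtain ⟨b, hb, hbx⟩ := mem_image.1 hx
      refine mem_image.2 ⟨b, hb, ?_⟩
      have : x = a1 - b + δ := by rw [hbx]; ring
      rw [this, hδ]
      ring
  have hGu : G = D ∪ E := by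
    apply Subset.antisymm
    · intro x hx
      obtain ⟨a, ha, b, hb, rfl⟩ := hall x (N2_mem.1 hx)
      rw [mem_union]
      rcases mem_insert.1 ha with rfl | ha'
      · exact Or.inl (mem_image.2 ⟨b, hb, rfl⟩)
      · rw [mem_singleton.1 ha']
        exact Or.inr (mem_image.2 ⟨b, hb, rfl⟩)
    · exact union_subset hDG hEG
  have hGle : G.card ≤ 2 * M := by
    rw [hGu]
    refine (card_union_le _ _).trans ?_
    omega
  have hGc : G.card = 2 * M := by
    have h1 := N2_pow_zero hpn hε hn0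
    simp only [pow_zero, sum_const, nsmul_eq_mul, mul_one] at h1
    have h2 := (ZMod.natCast_eq_natCast_iff' _ _ _).1 h1
    rw [Nat.mod_eq_of_lt, Nat.mod_eq_of_lt] at h2
    · exact h2
    · omega
    · exact lt_of_le_of_lt hGle (by omega)
  have hdisj : ∀ x, x ∈ D → x ∉ E := by
    have h1 := card_union_add_card_inter D E
    rw [← hGu, hGc, hDc, hEc] at h1
    have h2 : (D ∩ E).card = 0 := by omega
    intro x hx hx'
    have h3 : x ∈ D ∩ E := mem_inter.2 ⟨hx, hx'⟩
    rw [card_eq_zero.1 h2] at h3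
    exact absurd h3 (notMem_empty x)
  -- the count
  set Gd := G.filter fun x => x + δ ∈ G with hGd
  have hDGd : D ⊆ Gd := by
    intro x hx
    refine mem_filter.2 ⟨hDG hx, hEG ((hDE _).2 ?_)⟩
    rw [add_sub_cancel_right]
    exact hx
  have hJM : M ≤ Gd.card := hDc ▸ card_le_card hDGd
  have hJn : Gd.card ≤ 2 * M := hGc ▸ card_le_card (filter_subset _ _)
  have hpm : ∀ x : ZMod p, x ≠ 0 → x ^ (2 * M) = ε ∨ x ^ (2 * M) = -ε := by
    intro x hx
    have h1 := N2_sq hpn hx
    have h2 : (x ^ (2 * M) - ε) * (x ^ (2 * M) + ε) = 0 := by linear_combination h1 - hε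
    rcases mul_eq_zero.1 h2 with h3 | h3
    · exact Or.inl (sub_eq_zero.1 h3)
    · exact Or.inr (eq_neg_of_add_eq_zero_left h3)
  have h2ne : (2 : ZMod p) ≠ 0 := by
    intro h0
    have h1 : ((2 : ℕ) : ZMod p) = 0 := by exact_mod_cast h0
    rw [ZMod.natCast_eq_zero_iff] at h1
    have := Nat.le_of_dvd (by norm_num) h1
    omega
  have hneg : ε ≠ -ε := by
    intro h0
    have : (2 : ZMod p) * ε = 0 := by linear_combination h0
    exact mul_ne_zero h2ne hε0 this
  set t : ℕ := if -δ ∈ G then 1 else 0 with ht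
  have ht1 : t ≤ 1 := by
    rw [ht]
    split_ifs <;> omega
  have hcount : (2 : ZMod p) * (Gd.card : ZMod p) + t =
      (2 * M : ℕ) + ε * ((2 * M : ℕ) * (δ ^ (2 * M) + ε)) := by
    have h1 : ∀ x ∈ G, (2 : ZMod p) * (if x + δ ∈ G then 1 else 0) + (if x = -δ then 1 else 0) =
        1 + ε * (x + δ) ^ (2 * M) := by
      intro x hx
      by_cases hxd : x = -δ
      · rw [if_pos hxd, hxd, neg_add_cancel, zero_pow hn0.ne', if_neg]
        · ring
        · intro h0
          rw [N2_mem, zero_pow hn0.ne'] at h0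
          exact hε0 h0.symm
      · rw [if_neg hxd]
        have hx0 : x + δ ≠ 0 := fun h0 => hxd (eq_neg_of_add_eq_zero_left h0)
        rcases hpm _ hx0 with h2 | h2
        · rw [if_pos (N2_mem.2 h2), h2, hε]
          ring
        · rw [if_neg, h2]
          · linear_combination hε
          · intro h3
            exact hneg ((N2_mem.1 h3).symm.trans h2)
    have h2 := sum_congr rfl h1
    rw [sum_add_distrib, ← mul_sum, sum_boole, sum_ite_eq', sum_add_distrib, ← mul_sum,
      N2_shift hpn hε hn0, sum_const, nsmul_eq_mul, mul_one, hGc] at h2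
    rw [← h2, ht]
    push_cast
    rfl
  have h2n : ((2 * M : ℕ) : ZMod p) * 2 = -1 := by
    have h1 : ((2 * (2 * M) + 1 : ℕ) : ZMod p) = 0 := by
      rw [hpn]
      exact ZMod.natCast_self p
    push_cast at h1 ⊢
    linear_combination h1
  have hδn : δ ^ (2 * M) = -ε := by
    rcases hpm δ hδ0 with h1 | h1
    · exfalso
      rw [h1] at hcount
      have h2 : ((2 * Gd.card + t + 1 : ℕ) : ZMod p) = ((2 * M : ℕ) : ZMod p) := by
        push_cast at hcount h2n ⊢
        linear_combination hcount + h2n * (ε * ε) - hε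
      have h3 := (ZMod.natCast_eq_natCast_iff _ _ _).1 h2
      have h4 := (Nat.modEq_iff_dvd' (show 2 * M ≤ 2 * Gd.card + t + 1 by omega)).1 h3.symm
      have h5 := Nat.le_of_dvd (by omega) h4
      omega
    · exact h1
  rw [hδn] at hcount
  have hJ : Gd.card = M ∧ t = 0 := by
    have h2 : ((2 * Gd.card + t : ℕ) : ZMod p) = ((2 * M : ℕ) : ZMod p) := by
      push_cast at hcount ⊢
      linear_combination hcount
    have h3 := (ZMod.natCast_eq_natCast_iff _ _ _).1 h2
    have h4 := (Nat.modEq_iff_dvd' (show 2 * M ≤ 2 * Gd.card + t by omega)).1 h3.symm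
    have h5 : 2 * Gd.card + t - 2 * M = 0 := by
      apply Nat.eq_zero_of_dvd_of_lt h4
      omega
    omega
  have hGdD : D = Gd := eq_of_subset_of_card_le hDGd (by rw [hJ.1, hDc])
  have hnδ : -δ ∉ G := by
    intro h0
    have h1 := hJ.2
    rw [ht, if_pos h0] at h1
    exact one_ne_zero h1
  have hδG : δ ∉ G := by
    intro h0
    exact hneg ((N2_mem.1 h0).symm.trans hδn)
  have hnotG : ∀ x : ZMod p, x ≠ 0 → x ∉ G → x ^ (2 * M) = -ε := by
    intro x hx hxG
    rcases hpm x hx with h1 | h1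
    · exact absurd (N2_mem.2 h1) hxG
    · exact h1
  have hkey : ∀ x ∈ G, (x ^ 2 + -δ ^ 2) ^ (2 * M) = -1 := by
    intro x hx
    have e : x ^ 2 + -δ ^ 2 = (x + δ) * (x - δ) := by ring
    rw [e, mul_pow]
    have hxm : x - δ ≠ 0 := fun h0 => hδG (by rw [← sub_eq_zero.1 h0]; exact hx)
    have hxp : x + δ ≠ 0 := fun h0 => hnδ (by rw [← eq_neg_of_add_eq_zero_left h0]; exact hx)
    by_cases hxD : x ∈ D
    · have h1 : x + δ ∈ G := (mem_filter.1 (hGdD ▸ hxD : x ∈ Gd)).2
      have h2 : x - δ ∉ G := by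
        intro h0
        have h3 : x - δ ∈ Gd := mem_filter.2 ⟨h0, by rw [sub_add_cancel]; exact hx⟩
        rw [← hGdD] at h3
        exact hdisj x hxD ((hDE x).2 h3)
      rw [N2_mem.1 h1, hnotG _ hxm h2]
      linear_combination -hε
    · have hxE : x ∈ E := by
        rw [hGu, mem_union] at hx
        exact hx.resolve_left hxD
      have h1 : x - δ ∈ G := hDG ((hDE x).1 hxE)
      have h2 : x + δ ∉ G := by
        intro h0
        have h3 : x ∈ Gd := mem_filter.2 ⟨hx, h0⟩
        rw [← hGdD] at h3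
        exact hxD h3
      rw [N2_mem.1 h1, hnotG _ hxp h2]
      linear_combination -hε
  have hM3 : 3 ≤ M := by
    by_contra hcon
    have h1 : M = 2 := by omega
    rw [h1] at hpn
    have h2 : p = 9 := by omega
    have h3 := hp.out
    rw [h2] at h3
    norm_num at h3
  have hc : -δ ^ 2 ≠ 0 := neg_ne_zero.2 (pow_ne_zero _ hδ0)
  have k1 := N2_key hpn hε _ hc hkey (le_refl 1) (by omega)
  have k2 := N2_key hpn hε _ hc hkey (show 1 ≤ 2 by norm_num) (by omega)
  exact N2_arith hpn hM3 _ k1 k2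

end Pool.Agent.SK
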